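import Pool.Agent.P.MP_883472_co.Six.Fam

/-!
Six colours for the square of a path with one queue: two consecutive rows.
A vertex `x` is a hole for `h` if `3 ≤ h x`.
-/

namespace Pool.Agent.P.MP_883472_co.Six

/-- the admissible sets of holes in the row from `b` to `c` -/
def Lang (b c : ℕ) (h : ℕ → ℕ) : Prop :=
  (∀ x, b ≤ x → x < c → 3 ≤ h x → b + 2 ≤ x ∧ x + 2 ≤ c) ∧
  ∀ x, b ≤ x → x + 1 < c → 3 ≤ h x → 3 ≤ h (x + 1) → x = b + 2 ∧ x + 3 < c ∧ h (x + 3) < 3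

/-- the label of the vertex `z + 1` of the upper row -/
def Lab (h : ℕ → ℕ) (b c u z : ℕ) : Prop :=
  (u = 0 ∧ z + 1 = b) ∨ (u = 1 ∧ z = b) ∨ (u = 6 ∧ z + 1 = c) ∨ (u = 7 ∧ z = c) ∨
  (b + 1 ≤ z ∧ z + 1 < c ∧ ((u = 2 ∧ h (z + 1) < 3) ∨ (u = 3 ∧ 3 ≤ h (z + 1) ∧ h (z + 2) < 3) ∨
    (u = 4 ∧ z + 2 < c ∧ h (z + 1) < 3 ∧ h (z + 2) < 3) ∨
    (u = 5 ∧ h (z + 1) < 3 ∧ 3 ≤ h z ∧ (3 ≤ h (z + 2) ∨ z + 2 = c)) ∨
    (u = 8 ∧ z = b + 1 ∧ 3 ≤ h (z + 1) ∧ 3 ≤ h (z + 2)) ∨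
    (u = 9 ∧ z = b + 2 ∧ 3 ≤ h (z + 1) ∧ 3 ≤ h z)))

variable {a b c u w z : ℕ} {g h lo up : ℕ → ℕ}

theorem lab_next (H : Lang b c h) (hc : b + 2 ≤ c) (l : Lab h b c u z) (hz : z < c) :
    ∃ w ∈ nxt u, Lab h b c w (z + 1) := by
  have a1 := H.1 (z + 1)
  have a2 := H.1 (z + 2)
  have b0 := H.2 z
  have b1 := H.2 (z + 1)
  have b2 := H.2 (z + 2)
  simp only [Nat.add_assoc, Nat.reduceAdd] at b1 b2
  rcases l with l | l | l | l | ⟨l1, l2, l | l | l | l | l | l⟩ <;> obtain ⟨rfl, l⟩ := l <;>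
    simp only [Lab, nxt, List.mem_cons, List.not_mem_nil, or_false, exists_eq_or_imp, exists_eq_left,
      Nat.add_assoc, Nat.reduceAdd, Nat.reduceEqDiff, false_and, true_and, false_or, or_false,
      and_false, exists_false] <;> omega

/-- the conditions on three consecutive vertices of the upper row -/
def WU (h : ℕ → ℕ) (c : ℕ) (up : ℕ → ℕ) (z : ℕ) : Prop :=
  up (z + 2) ≤ 3 ∧ (up (z + 2) < 3 → up (z + 2) ≠ up z ∧ up (z + 2) ≠ up (z + 1)) ∧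
  (c ≤ z + 2 → up (z + 2) < 3) ∧
  (z + 2 < c → h (z + 2) < 3 → up (z + 2) < 3 → 3 ≤ h (z + 1) ∧ (3 ≤ h (z + 3) ∨ z + 3 = c)) ∧
  (z + 2 < c → 3 ≤ h (z + 2) → up (z + 2) = 3 → up (z + 1) < 3 ∧ h (z + 1) < 3 ∧ up z < 3) ∧
  (z + 1 < c → 3 ≤ h (z + 1) → up (z + 1) = 3 → up (z + 2) < 3 ∧ h (z + 2) < 3) ∧
  (z + 2 = c → up z = 3 → 3 ≤ up (z + 1))

theorem lab_H (l : Lab h b c u z) (hz : b + 1 ≤ z) (hc : z + 1 < c) (t : 3 ≤ h (z + 1)) :
    u = 3 ∨ u = 8 ∨ u = 9 := by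
  unfold Lab at l
  omega

theorem lab_5 (l : Lab h b c 5 z) : h (z + 1) < 3 := by
  unfold Lab at l
  omega

theorem lab_ge (hc : b + 2 ≤ c) (l : Lab h b c u z) : b ≤ z + 1 := by
  unfold Lab at l
  omega

theorem lab_S (hc : b + 2 ≤ c) (l : Lab h b c u z) :
    (c ≤ z + 1 → u = 6 ∨ u = 7) ∧ (z + 1 = c → u = 6) := by
  unfold Lab at l
  omega

theorem lab_Z (l : Lab h b c u z) (hb : b ≤ z) (hc : z + 1 < c) (t : h (z + 1) < 3)
    (k : ¬ (u = 1 ∨ u = 2 ∨ u = 4)) : 3 ≤ h z ∧ (3 ≤ h (z + 2) ∨ z + 2 = c) := by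
  unfold Lab at l
  omega

theorem wu_of (H : Lang b c h) (hc : b + 2 ≤ c) {d : ℕ} (l : Lab h b c u z)
    (l' : Lab h b c w (z + 1)) (k : okU u w d (up z) (up (z + 1)) (up (z + 2))) : WU h c up z := by
  obtain ⟨k1, -, -, -, k5, k6, k7, k8, k9, k10⟩ := k
  have e := lab_ge hc l
  refine ⟨k1, k5, fun t => k6 ((lab_S hc l').1 t),
    fun t1 t2 t3 => lab_Z l' e t1 t2 fun t => t3.ne (k7 t), fun t1 t2 t3 => ?_,
    fun t1 t2 t3 => ?_, fun t1 t2 => not_lt.1 fun t3 => k10 ((lab_S hc l').2 t1) ⟨t2, t3⟩⟩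
  · have := H.1 (z + 2) (by omega) t1 t2
    obtain ⟨rfl, e1, e2⟩ := k8 ⟨lab_H l' (by omega) t1 t2, t3⟩
    exact ⟨e1, lab_5 l, e2⟩
  · have := H.1 (z + 1) e t1 t2
    obtain ⟨rfl, e1⟩ := k9 ⟨lab_H l (by omega) t1 t2, t3⟩
    exact ⟨e1, lab_5 l'⟩

/-- the conditions on three consecutive vertices of the lower row -/
def WD (a : ℕ) (lo : ℕ → ℕ) (z : ℕ) : Prop :=
  (lo (z + 2) < 3 → lo (z + 2) ≠ lo z ∧ lo (z + 2) ≠ lo (z + 1)) ∧
  (3 ≤ lo (z + 2) → a ≤ z ∧ lo z ≠ 4 ∧ lo z ≠ 6 ∧ (3 ≤ lo (z + 1) → lo (z + 2) = 6 ∧ z = a + 1) ∧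
    (lo (z + 2) = 3 → lo z < 3))

/-- the values up to the edge from `y` to `x` -/
structure Inv (g h : ℕ → ℕ) (a b c y x : ℕ) (lo up : ℕ → ℕ) : Prop where
  l0 : lo a < 3
  u0 : up b = 3
  le : ∀ z, lo z ≤ 6
  wd : ∀ z, a ≤ z + 1 → z + 2 ≤ y → WD a lo z
  wu : ∀ z, b ≤ z + 1 → z + 2 ≤ x → WU h c up z
  q : ∀ v w, a ≤ v → v ≤ y → w ≤ x → g v ≤ w → w ≤ g (v + 1) →
    (3 ≤ lo v → up w < 3) ∧ (lo v < 3 → lo v ≠ up w) ∧ (lo v = 5 → w = g v)

/-- some set of the family is realised at the edge from `y + 1` to `x + 1` -/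
def St (g h : ℕ → ℕ) (a b c y x : ℕ) : Prop :=
  ∃ e ∈ fam, Lab h b c e.1 x ∧ e.2.1 = min (y + 1 - a) 3 ∧
    (e.2.2.1 ≠ 0 → y = a ∧ x + 1 = g (a + 1) ∧ b + 1 ≤ x) ∧
    ∀ s ∈ e.2.2.2, ∃ lo up, Inv g h a b c (y + 1) (x + 1) lo up ∧ lo y = s / 112 ∧
      lo (y + 1) = s / 16 % 7 ∧ up x = s / 4 % 4 ∧ up (x + 1) = s % 4

theorem st_U (hg : Monotone g) (H : Lang b c h) (hc : b + 2 ≤ c) {y x : ℕ} (hx : x < c)
    (hb : b ≤ x + 1) (h1 : g (y + 1) ≤ x + 1) (S : St g h a b c y x) : St g h a b c y (x + 1) := by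
  obtain ⟨e, he, l, hd, -, hs⟩ := S
  obtain ⟨w, hw, l'⟩ := lab_next H hc l hx
  obtain ⟨e', he', rfl, e2, e3, ht⟩ := fam_U e he w hw
  refine ⟨e', he', l', e2.trans hd, fun t => absurd e3 t, fun t t' => ?_⟩
  obtain ⟨s, s', k1, k2, k⟩ := ht t t'
  obtain ⟨lo, up, I, r1, r2, r3, r4⟩ := hs s s'
  have n1 : ∀ z, z ≤ x + 1 → Function.update up (x + 2) (t % 4) z = up z :=
    fun z hz => Function.update_of_ne (by omega) _ _
  have n2 : Function.update up (x + 2) (t % 4) (x + 2) = t % 4 := Function.update_self ..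
  refine ⟨lo, Function.update up (x + 2) (t % 4), ⟨I.l0, (n1 b hb).trans I.u0, I.le, I.wd,
    fun z z1 z2 => ?_, fun v w v1 v2 w1 w2 w3 => ?_⟩, by omega, by omega, by rw [n1 _ le_rfl]; omega,
    n2⟩
  · rcases z2.lt_or_eq with z3 | z3
    · have := I.wu z z1 (by omega)
      unfold WU at this ⊢
      rwa [n1 z (by omega), n1 (z + 1) (by omega), n1 (z + 2) (by omega)]
    · obtain rfl : z = x := by omega
      refine wu_of H hc l l' (d := s / 16 % 7) ?_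
      rwa [n1 z (by omega), n1 (z + 1) (by omega), n2, r3, r4]
  · rcases w1.lt_or_eq with w4 | rfl
    · rw [n1 w (by omega)]
      exact I.q v w v1 v2 (by omega) w2 w3
    · obtain rfl : v = y + 1 := by
        by_contra hv
        have := hg (show v + 1 ≤ y + 1 by omega)
        omega
      rw [n2]
      obtain ⟨-, k2, k3, k4, -⟩ := k
      omega

theorem st_D (hc : b + 2 ≤ c) {y x : ℕ} (ha : a ≤ y + 1)
    (h1 : x + 1 = g (y + 2)) (hp : g (a + 1) ≤ b + 1 ∨ g (a + 1) < g (a + 2) ∨ y ≠ a)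
    (S : St g h a b c y x) : St g h a b c (y + 1) x := by
  obtain ⟨e, he, l, hd, hq, hs⟩ := S
  have e0 : e.2.2.1 = 0 := by
    by_contra t
    obtain ⟨rfl, t2, t3⟩ := hq t
    omega
  obtain ⟨e', he', e1, e2, e3, ht⟩ := fam_D e he e0
  refine ⟨e', he', e1 ▸ l, by omega, fun t => ?_, fun t t' => ?_⟩
  · obtain ⟨t1, t2⟩ := e3 t
    obtain rfl : a = y + 1 := by omega
    unfold Lab at l
    exact ⟨rfl, h1, by omega⟩
  obtain ⟨s, s', k1, k2, k⟩ := ht t t'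
  obtain ⟨lo, up, I, r1, r2, r3, r4⟩ := hs s s'
  have n1 : ∀ z, z ≤ y + 1 → Function.update lo (y + 2) (t / 16 % 7) z = lo z :=
    fun z hz => Function.update_of_ne (by omega) _ _
  have n2 : Function.update lo (y + 2) (t / 16 % 7) (y + 2) = t / 16 % 7 := Function.update_self ..
  refine ⟨Function.update lo (y + 2) (t / 16 % 7), up, ⟨(n1 a ha).trans_lt I.l0, I.u0, fun z => ?_,
    fun z z1 z2 => ?_, I.wu, fun v w v1 v2 w1 w2 w3 => ?_⟩, by rw [n1 _ le_rfl]; omega, n2,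
    by omega, by omega⟩
  · by_cases e : z = y + 2
    · rw [e, n2]; omega
    · rw [Function.update_of_ne e]; exact I.le z
  · unfold WD
    rcases z2.lt_or_eq with z3 | z3
    · rw [n1 z (by omega), n1 (z + 1) (by omega), n1 (z + 2) (by omega)]
      exact I.wd z z1 (by omega)
    · obtain rfl : z = y := by omega
      rw [n1 z (by omega), n1 (z + 1) (by omega), n2, r1, r2]
      obtain ⟨k3, k4⟩ := k
      omega
  · rcases v2.lt_or_eq with v3 | rfl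
    · rw [n1 v (by omega)]
      exact I.q v w v1 (by omega) w1 w2 w3
    · obtain rfl : w = x + 1 := by
        change g (y + 2) ≤ w at w2
        omega
      rw [n2, r4]
      obtain ⟨k3, k4⟩ := k
      exact ⟨fun t => (k4 t).1, fun t => (k3 t).2.2, fun _ => h1⟩

/-- the values on two consecutive rows -/
theorem level (hg : Monotone g) (H : Lang b c h) (hc : b + 2 ≤ c) (ha : 1 ≤ a) (hab : a < b)
    (h3 : b ≠ a + 3) (g1 : g a = b) (g2 : g b = c + 1)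
    (hp : g (a + 1) ≤ b + 1 ∨ g (a + 1) < g (a + 2) ∨ b ≤ a + 2) :
    ∃ lo up y, y + 2 = b ∧ Inv g h a b c (y + 1) (c + 1) lo up ∧ lo (y + 1) < 3 ∧ lo y ≠ 6 := by
  obtain ⟨a, rfl⟩ : ∃ k, a = k + 1 := ⟨a - 1, by omega⟩
  have row : ∀ y x, a ≤ y → y + 1 < b → x + 1 = g (y + 1) → St g h (a + 1) b c y x →
      ∀ x', x' + 1 = g (y + 2) → St g h (a + 1) b c y x' := fun y x y1 y2 e S x' e' => by
    have m1 := hg (show a + 1 ≤ y + 1 by omega)
    have m2 := hg (show y + 1 ≤ y + 2 by omega)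
    have m3 := hg (show y + 2 ≤ b by omega)
    have : ∀ k, x ≤ k → k ≤ x' → St g h (a + 1) b c y k := fun k hk => by
      induction k, hk using Nat.le_induction with
      | base => exact fun _ => S
      | succ k hk ih => exact fun t => st_U hg H hc (by omega) (by omega) (by omega) (ih (by omega))
    exact this x' (by omega) le_rfl
  have all : ∀ y, a ≤ y → y + 1 < b → ∀ x, x + 1 = g (y + 1) → St g h (a + 1) b c y x := by
    intro y hy
    induction y, hy using Nat.le_induction with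
    | base =>
      intro _ x e
      refine ⟨_, fam_start, Or.inl ⟨rfl, e.trans g1⟩, by simp, fun t => absurd rfl t, fun s hs => ?_⟩
      have hs' : s = 351 ∨ s = 367 ∨ s = 383 := by simpa using hs
      refine ⟨fun z => if z = a + 1 then s / 16 % 7 else 3, fun _ => 3, ⟨by simp; omega, rfl,
        fun z => by split_ifs <;> omega, fun z z1 z2 => by omega, fun z z1 z2 => by omega,
        fun v w v1 v2 w1 w2 w3 => ?_⟩, by simp; omega, by simp, by dsimp only; omega,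
        by dsimp only; omega⟩
      obtain rfl : v = a + 1 := by omega
      simp only [if_true]
      omega
    | succ y hy ih =>
      intro t x e
      have m1 := hg (show a + 1 ≤ y + 1 by omega)
      exact st_D hc (by omega) e (by omega)
        (row y (g (y + 1) - 1) hy (by omega) (by omega) (ih (by omega) _ (by omega)) x e)
  obtain ⟨y, rfl⟩ : ∃ y, b = y + 2 := ⟨b - 2, by omega⟩
  have m1 := hg (show a + 1 ≤ y + 1 by omega)
  obtain ⟨e, he, l, hd, -, hs⟩ := row y (g (y + 1) - 1) (by omega) (by omega) (by omega)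
    (all y (by omega) (by omega) _ (by omega)) c g2.symm
  obtain ⟨s, s', k1, k2⟩ := fam_end e he (by unfold Lab at l; omega) (by omega)
  obtain ⟨lo, up, I, r1, r2, -⟩ := hs s s'
  exact ⟨lo, up, y, rfl, I, by omega, by omega⟩

end Pool.Agent.P.MP_883472_co.Six
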