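import Pool.Agent.P.MP_883472_co.Six.Step

/-!
Six colours for the square of a path with one queue: the choice of the rows.
-/

namespace Pool.Agent.P.MP_883472_co.Six

variable {f : ℕ → ℕ} {a b : ℕ}

/-- rows in which no vertex is moved -/
theorem top0 (H : ∀ β : Bool, ∃ col : ℕ → Bool × Fin 3,
    (∀ u v, a ≤ u → Adj f u v ∨ (u = a ∧ b ≤ v ∧ v ≤ f (a + 1)) → col u ≠ col v) ∧
    (∀ y, a ≤ y → y < b → (col y).1 = β) ∧ (col b).1 = !β ∧ (col (b + 1)).1 = !β) :
    Top f a b := by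
  refine ⟨fun _ => 0, ⟨fun x _ _ t => by simp at t, fun x _ _ t => by simp at t⟩, fun M A β => ?_⟩
  obtain ⟨col, c1, c2, c3, c4⟩ := H β
  refine ⟨col, fun u v u1 _ _ => c1 u v u1, fun y y1 y2 _ => c2 y y1 y2, c3, c4, fun y x y1 => ?_⟩
  rcases A.lens y y1 with t | ⟨L, R, -, -, ⟨-, -, t | ⟨-, ⟨z, -, t⟩, -⟩⟩, -⟩ <;> simp at t

theorem Top.col (T : Top f a b) (hb : b ≤ a + 2) : ∃ col : ℕ → Bool × Fin 3,
    ∀ u v, a ≤ u → Adj f u v ∨ (u = a ∧ a + 2 ≤ v ∧ v ≤ f (a + 1)) → col u ≠ col v := by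
  obtain ⟨A, -, T⟩ := T
  obtain ⟨col, c, -⟩ := T (fun _ => False)
    ⟨fun _ t => t.elim, fun _ t => t.elim, fun z z1 z2 => by omega⟩ true
  exact ⟨col, fun u v u1 e => c u v u1 id id (e.imp_right fun t => by omega)⟩

theorem base (hN : ∀ y, a ≤ y → f y = y + 3) : Top f a (a + 2) := by
  refine top0 fun β => ⟨fun v => (if (v - a) % 6 = 2 ∨ (v - a) % 6 = 3 ∨ (v - a) % 6 = 4 then !β
    else β, Fin.ofNat 3 (v - a)), fun u v u1 e => ?_, fun y y1 y2 => if_neg (by omega),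
    if_pos (by omega), if_pos (by omega)⟩
  have e' : u < v ∧ v ≤ u + 4 := by
    have := hN (u + 1) (by omega)
    have := hN (a + 1) (by omega)
    rcases e with ⟨e1, e2⟩ | e <;> omega
  simp only [Ne, Prod.mk.injEq, Fin.ext_iff, Fin.val_ofNat, not_and]
  intro t s
  split_ifs at t <;> first | omega | simp at t

/-- five distinct colours at the start -/
theorem five {col : ℕ → Bool × Fin 3} (h3 : a + 4 ≤ f (a + 1))
    (c : ∀ u v, a ≤ u → Adj f u v ∨ (u = a ∧ a + 2 ≤ v ∧ v ≤ f (a + 1)) → col u ≠ col v)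
    (e : col (a + 1) ≠ col (a + 4)) : Top f a (a + 3) := by
  refine top0 fun β => ?_
  obtain ⟨σ, hσ⟩ := Equiv.Perm.exists_extending_pair (f := fun i : Fin 5 => col (a + i))
    (g := ![(β, 0), (β, 1), (β, 2), (!β, 0), (!β, 1)])
    (Function.Injective.of_lt_imp_ne fun i j hij => by
      have h1 : i.val < j.val := hij
      have h2 := j.2
      by_cases t : i.val = 1 ∧ j.val = 4
      · simpa only [t.1, t.2] using e
      · exact c _ _ (by omega) (by unfold Adj; omega))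
    (by revert β; decide)
  refine ⟨fun v => σ (col v), fun u v u1 t => σ.injective.ne (c u v u1 (t.imp_right fun s => by
    omega)), fun y y1 y2 => ?_, congrArg Prod.fst (hσ 3), congrArg Prod.fst (hσ 4)⟩
  obtain rfl | rfl | rfl : y = a ∨ y = a + 1 ∨ y = a + 2 := by omega
  exacts [congrArg Prod.fst (hσ 0), congrArg Prod.fst (hσ 1), congrArg Prod.fst (hσ 2)]

/-- four colours at the start -/
theorem four {col : ℕ → Bool × Fin 3} {s : ℕ} (hf : Monotone f) (h3 : s + 4 ≤ f (s + 1))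
    (c : ∀ u v, s ≤ u → Adj f u v ∨ (u = s ∧ s + 2 ≤ v ∧ v ≤ f (s + 1)) → col u ≠ col v)
    (e : col (s + 1) = col (s + 4)) (hs : a < s) (h1 : s < f a) (h2 : f s ≤ s + 4) :
    Top f a (s + 1) := by
  refine top0 fun β => ?_
  obtain ⟨σ, hσ⟩ := Equiv.Perm.exists_extending_pair (f := fun i : Fin 4 => col (s + i))
    (g := ![(β, 0), (!β, 0), (!β, 1), (!β, 2)])
    (Function.Injective.of_lt_imp_ne fun i j hij => by
      have h1 : i.val < j.val := hij
      have h2 := j.2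
      exact c _ _ (by omega) (by unfold Adj; omega))
    (by revert β; decide)
  obtain ⟨k, hk⟩ : ∃ k : ℕ → Bool × Fin 3, ∀ v, k v =
    if v < s then (β, Fin.ofNat 3 (s - v)) else σ (col v) := ⟨_, fun _ => rfl⟩
  have k1 : ∀ v, v ≤ s → k v = (β, Fin.ofNat 3 (s - v)) := fun v t => by
    rw [hk]
    split_ifs with t'
    · rfl
    · obtain rfl : v = s := by omega
      rw [Nat.sub_self]
      exact hσ 0
  have k2 : ∀ v, s < v → v ≤ s + 4 → (k v).1 = !β := fun v t t' => by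
    rw [hk, if_neg (by omega)]
    obtain rfl | rfl | rfl | rfl : v = s + 1 ∨ v = s + 2 ∨ v = s + 3 ∨ v = s + 4 := by omega
    exacts [congrArg Prod.fst (hσ 1), congrArg Prod.fst (hσ 2), congrArg Prod.fst (hσ 3),
      e ▸ congrArg Prod.fst (hσ 1)]
  refine ⟨k, fun u v u1 t => ?_, fun y _ y2 => by rw [k1 y (by omega)], k2 _ (by omega) (by omega),
    k2 _ (by omega) (by omega)⟩
  by_cases us : u < s
  · have m1 := hf u1
    have m2 := hf (show u + 1 ≤ s from us)
    have m3 := hf (show a + 1 ≤ s from hs)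
    have t' : u < v ∧ (v ≤ u + 2 ∨ (s < v ∧ v ≤ s + 4)) := by
      rcases t with ⟨t1, t2⟩ | t <;> omega
    by_cases vs : v ≤ s
    · rw [k1 u us.le, k1 v vs]
      simp only [Ne, Prod.mk.injEq, Fin.ext_iff, Fin.val_ofNat, true_and]
      omega
    · intro q
      have := k2 v (by omega) (by omega)
      rw [← q, k1 u us.le] at this
      simp at this
  · have t' := t.resolve_right (by omega)
    rw [hk, hk, if_neg us, if_neg (by have := t'.1; omega)]
    exact σ.injective.ne (c u v (by omega) (Or.inl t'))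

/-- the choice of the rows, from the top down -/
theorem rows_top (hf : Monotone f) (h3 : ∀ y, y + 3 ≤ f y) {N : ℕ} (hN : ∀ y, N ≤ y → f y = y + 3)
    (k : ℕ) : ∀ a t, N ≤ a + k → 1 ≤ a → a + 2 ≤ t → t ≤ f a → (t = a + 2 ∨ (a + 5 ≤ t ∧ t = f a ∧
      (f (a + 1) = f a ∨ f (a + 1) < f (a + 2)))) → ∃ c, c ≤ t ∧ t ≤ c + 1 ∧ Top f a c := by
  induction k with
  | zero =>
    intro a t a1 _ _ _ e
    have := hN a a1
    exact ⟨a + 2, by omega, by omega, base fun y y1 => hN y (by omega)⟩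
  | succ k ih =>
    intro a t a1 a2 t1 t2 e
    obtain ⟨s, rfl⟩ : ∃ s, t = s + 1 := ⟨t - 1, by omega⟩
    have st : ∀ c d, c ≤ s + 1 → s ≤ c → c + 2 ≤ d → d ≤ f c → f c ≤ d + 1 → Top f c d →
        ∃ c, c ≤ s + 1 ∧ s + 1 ≤ c + 1 ∧ Top f a c := fun c d c1 c2 d1 d2 d3 T =>
      ⟨c, c1, by omega, step hf a2 (by omega) (by omega) d1 (by omega) d2 d3 (by omega) T⟩
    by_cases tr : f s ≤ s + 4
    · obtain ⟨c, c1, -, T⟩ := ih s (s + 2) (by omega) (by omega) le_rfl (by have := h3 s; omega)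
        (Or.inl rfl)
      obtain ⟨col, hc⟩ := T.col c1
      by_cases q : col (s + 1) = col (s + 4)
      · exact ⟨s + 1, le_rfl, by omega, four hf (h3 (s + 1)) hc q (by omega) t2 tr⟩
      · exact st s (s + 3) (by omega) le_rfl (by omega) (h3 s) tr (five (h3 (s + 1)) hc q)
    · by_cases fr : f (s + 1) = f s ∨ f (s + 1) < f (s + 2)
      · obtain ⟨d, d1, d2, T⟩ := ih s (f s) (by omega) (by omega) (by omega) le_rfl
          (Or.inr ⟨by omega, rfl, fr⟩)
        exact st s d (by omega) le_rfl (by omega) d1 d2 T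
      · have m1 := hf (show s ≤ s + 1 by omega)
        have m2 := hf (show s + 1 ≤ s + 2 by omega)
        obtain ⟨d, d1, d2, T⟩ := ih (s + 1) (f (s + 1)) (by omega) (by omega) (by omega) le_rfl
          (Or.inr ⟨by omega, rfl, Or.inl (show f (s + 2) = f (s + 1) by omega)⟩)
        exact st (s + 1) d le_rfl (by omega) (by omega) d1 d2 T

/-- six colours suffice -/
theorem six (hf : Monotone f) (h3 : ∀ y, y + 3 ≤ f y) {N : ℕ} (hN : ∀ y, N ≤ y → f y = y + 3) :
    ∃ col : ℕ → Bool × Fin 3, ∀ u v, 1 ≤ u → Adj f u v → col u ≠ col v := by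
  obtain ⟨c, c1, -, T⟩ := rows_top hf h3 hN N 1 3 (by omega) le_rfl le_rfl
    (by have := h3 1; omega) (Or.inl rfl)
  obtain ⟨col, hc⟩ := T.col c1
  exact ⟨col, fun u v u1 e => hc u v u1 (Or.inl e)⟩

end Pool.Agent.P.MP_883472_co.Six
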