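import Pool.Agent.P.MP_883472_co.Six.Lev

/-!
Six colours for the square of a path with one queue: from one row to the row below.
-/

namespace Pool.Agent.P.MP_883472_co.Six

/-- proper colourings with three colours of a part `N` of the lower row and a part `U` of the
upper row -/
def Pro (g : ℕ → ℕ) (N U : ℕ → Prop) : Prop :=
  ∃ c : ℕ → Fin 3, ∀ u v, N u ∨ U u → N v ∨ U v → u < v →
    v ≤ u + 2 ∨ (N u ∧ g u ≤ v ∧ v ≤ g (u + 1)) → c u ≠ c v

theorem fin3 : ∀ p q u v : Fin 3, ∃ (α : Fin 3) (π : Equiv.Perm (Fin 3)),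
    p ≠ α ∧ q ≠ α ∧ α ≠ π u ∧ q ≠ π u ∧ α ≠ π v := by
  decide +kernel

theorem fin3' : ∀ p q u v : Fin 3, p ≠ q → u ≠ v → ∃ π : Equiv.Perm (Fin 3), π p = u ∧ π q = v := by
  decide +kernel

/-- a vertex over a gap of the lower row can be added -/
theorem fill {g : ℕ → ℕ} (hg : Monotone g) {N U : ℕ → Prop} {b x L R : ℕ}
    (hN : ∀ u, N u → u < b ∧ b ≤ g u) (hU : ∀ u, U u → b + 2 ≤ u) (hx : b + 2 ≤ x)
    (h1 : g (L + 1) < x) (h2 : x < g R) (h3 : ∀ w, L < w → w < R → ¬ N w)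
    (h4 : ∀ u v, N u → N v → u ≤ L → R ≤ v → u + 2 < v) (H : Pro g N U) :
    Pro g N fun v => U v ∨ v = x := by
  classical
  obtain ⟨c, hc⟩ := H
  by_cases hxU : U x
  · exact ⟨c, fun u v hu hv => hc u v (by rcases hu with h | h | rfl <;> simp [*])
      (by rcases hv with h | h | rfl <;> simp [*])⟩
  obtain ⟨x, rfl⟩ : ∃ k, x = k + 2 := ⟨x - 2, by omega⟩
  obtain ⟨α, π, a1, a2, a3, a4, a5⟩ := fin3 (c x) (c (x + 1)) (c (x + 3)) (c (x + 4))
  have k : ∀ u v, N u → g u ≤ v → v ≤ g (u + 1) → (u ≤ L ∧ v < x + 2) ∨ (L < u ∧ x + 2 < v) := by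
    intro u v hu e1 e2
    by_cases e : u ≤ L
    · have := hg (show u + 1 ≤ L + 1 by omega)
      omega
    · have := hg (show R ≤ u from not_lt.1 fun t => h3 u (by omega) t hu)
      omega
  refine ⟨fun w => if w = x + 2 then α else
    if (w < b ∧ w ≤ L) ∨ (b ≤ w ∧ w < x + 2) then c w else π (c w), fun u v hu hv huv e => ?_⟩
  have n : ∀ w, N w ∨ U w ∨ w = x + 2 → w ≠ x + 2 → N w ∨ U w := by tauto
  have hu' : N u → u < b ∧ b ≤ g u := hN u
  have hv' : N v → v < b ∧ b ≤ g v := hN v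
  have k' := k u v
  dsimp only
  by_cases e1 : u = x + 2
  · have : ¬ N u := fun t => by have := hu' t; omega
    have e2 : v = x + 3 ∨ v = x + 4 := by
      rcases e with e | e
      · omega
      · exact absurd e.1 this
    rw [if_pos e1, if_neg (by omega), if_neg (by omega)]
    rcases e2 with rfl | rfl <;> assumption
  by_cases e2 : v = x + 2
  · have e3 : u = x ∨ u = x + 1 := by
      rcases e with e | e
      · omega
      · have := k' e.1 e.2.1 e.2.2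
        omega
    rw [if_neg e1, if_pos e2, if_pos (by omega)]
    rcases e3 with rfl | rfl <;> assumption
  have hne := hc u v (n u hu e1) (n v hv e2) huv e
  rw [if_neg e1, if_neg e2]
  split_ifs with t1 t2 t2
  · exact hne
  · rcases n u hu e1 with p | p <;> rcases n v hv e2 with q | q
    · have := hu' p
      have := hv' q
      have := h4 u v p q (by omega) (not_lt.1 fun t => h3 v (by omega) t q)
      omega
    · have := hu' p
      have := hU v q
      rcases e with e | e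
      · omega
      · have := k' e.1 e.2.1 e.2.2
        omega
    · have := hU u p
      have := hv' q
      omega
    · have := hU u p
      have := hU v q
      rcases e with e | e
      · obtain rfl : u = x + 1 := by omega
        obtain rfl : v = x + 3 := by omega
        exact a4
      · have := hu' e.1
        omega
  · rcases e with e | e
    · rcases n v hv e2 with q | q
      · have := hv' q
        omega
      · have := hU v q
        omega
    · have := hu' e.1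
      have := k' e.1 e.2.1 e.2.2
      omega
  · exact π.injective.ne hne

/-- the edges -/
def Adj (f : ℕ → ℕ) (u v : ℕ) : Prop := u < v ∧ (v ≤ u + 2 ∨ (f u ≤ v ∧ v ≤ f (u + 1)))

/-- the ends of an interval of moved vertices -/
def End (a b : ℕ) (A : ℕ → ℕ) (M : ℕ → Prop) (L : ℕ) : Prop :=
  a ≤ L ∧ L < b ∧ (3 ≤ A L ∨ (M L ∧ (∃ z, z + 1 = L ∧ 3 ≤ A z) ∧ (3 ≤ A (L + 1) ∨ L + 1 = b)))

/-- the sets of vertices of a row that can be moved to the other class -/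
structure Adm (a b : ℕ) (A : ℕ → ℕ) (M : ℕ → Prop) : Prop where
  rg : ∀ y, M y → a + 2 ≤ y ∧ y < b
  lens : ∀ y, M y → 3 ≤ A y ∨ ∃ L R, L < y ∧ y < R ∧ End a b A M L ∧ (End a b A M R ∨ R = b) ∧
    ∀ w, L < w → w < R → M w
  back : ∀ z, a ≤ z → z + 2 < b → 3 ≤ A (z + 2) → ¬ M (z + 2) →
    M z ∧ M (z + 1) ∧ M (z + 3) ∧ M (z + 4) ∧ 3 ≤ A z ∧ 3 ≤ A (z + 4)

/-- the graph from the row between `a` and `b` on has good colourings -/
def Top (f : ℕ → ℕ) (a b : ℕ) : Prop :=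
  ∃ A, Lang a b A ∧ ∀ M, Adm a b A M → ∀ β : Bool, ∃ col : ℕ → Bool × Fin 3,
    (∀ u v, a ≤ u → ¬ M u → ¬ M v → Adj f u v ∨ (u = a ∧ b ≤ v ∧ v ≤ f (a + 1)) → col u ≠ col v) ∧
    (∀ y, a ≤ y → y < b → ¬ M y → (col y).1 = β) ∧ (col b).1 = !β ∧ (col (b + 1)).1 = !β ∧
    ∀ y x, M y → f y ≤ x → x ≤ f (y + 1) → (col x).1 = β

/-- the properties of the values on two rows -/
structure Val (g h : ℕ → ℕ) (a b c : ℕ) (lo up : ℕ → ℕ) : Prop where
  lang : Lang a b lo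
  l1 : ∀ u v, a ≤ u → u < v → v ≤ u + 2 → v < b → lo v < 3 → lo u ≠ lo v
  l2 : ∀ z, a ≤ z → z + 4 < b → 3 ≤ lo z → 3 ≤ lo (z + 2) → 3 ≤ lo (z + 4) →
    g (z + 2) = g (z + 3)
  q : ∀ v w, a ≤ v → v < b → g v ≤ w → w ≤ g (v + 1) →
    (3 ≤ lo v → up w < 3) ∧ (lo v < 3 → lo v ≠ up w)
  u1 : ∀ u v, b ≤ u → u < v → v ≤ u + 2 → v ≤ c + 1 → up v < 3 → up u ≠ up v
  u2 : up c < 3 ∧ up (c + 1) < 3
  u3 : ∀ x, b ≤ x → x ≤ c + 1 → up x < 3 → b + 2 ≤ x
  u4 : ∀ x, b ≤ x → x < c → h x < 3 → up x < 3 →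
    (∃ z, z + 1 = x ∧ 3 ≤ h z) ∧ (3 ≤ h (x + 1) ∨ x + 1 = c)
  u5 : ∀ z, b ≤ z → z + 2 < c → 3 ≤ h (z + 2) → ¬ up (z + 2) < 3 → z + 4 < c ∧
    up z < 3 ∧ up (z + 1) < 3 ∧ up (z + 3) < 3 ∧ up (z + 4) < 3 ∧ 3 ≤ h z ∧ 3 ≤ h (z + 4)

variable {a b c : ℕ} {f g h lo up : ℕ → ℕ}

theorem val (hg : Monotone g) (H : Lang b c h) (hc : b + 2 ≤ c) (ha : 1 ≤ a) (hab : a < b)
    (h3 : b ≠ a + 3) (g1 : g a = b) (g2 : g b = c + 1)
    (hp : g (a + 1) ≤ b + 1 ∨ g (a + 1) < g (a + 2) ∨ b ≤ a + 2) :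
    ∃ lo up, Val g h a b c lo up := by
  obtain ⟨lo, up, y, rfl, I, e1, e2⟩ := level hg H hc ha hab h3 g1 g2 hp
  have q : ∀ v w, a ≤ v → v < y + 2 → g v ≤ w → w ≤ g (v + 1) → _ := fun v w v1 v2 w1 w2 =>
    I.q v w v1 (by omega) (w2.trans ((hg v2).trans g2.le)) w1 w2
  have r : ∀ x, a ≤ x → x < y + 2 → 3 ≤ lo x → a + 2 ≤ x ∧ x + 2 ≤ y + 2 := fun x x1 x2 x3 => by
    have := I.l0
    have n1 : x ≠ a := by rintro rfl; omega
    have n2 : x ≠ y + 1 := by rintro rfl; omega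
    obtain ⟨z, rfl⟩ : ∃ z, x = z + 2 := ⟨x - 2, by omega⟩
    have := (I.wd z (by omega) (by omega)).2 x3
    omega
  have u3 : ∀ x, y + 2 ≤ x → x ≤ c + 1 → up x < 3 → y + 2 + 2 ≤ x := fun x x1 x2 x3 => by
    have := I.u0
    have n1 : x ≠ y + 2 := by rintro rfl; omega
    by_contra n2
    obtain rfl : x = y + 1 + 2 := by omega
    have a1 := H.1 (y + 1 + 1) le_rfl (by omega)
    have a2 := H.1 (y + 1 + 2) (by omega) (by omega)
    have := (I.wu (y + 1) le_rfl (by omega)).2.2.2.1 (by omega) (by omega) x3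
    omega
  have u4 : ∀ z, y + 2 ≤ z + 2 → z + 2 < c → h (z + 2) < 3 → up (z + 2) < 3 →
      3 ≤ h (z + 1) ∧ (3 ≤ h (z + 3) ∨ z + 3 = c) := fun z z1 z2 z3 z4 =>
    (I.wu z (by have := u3 _ z1 (by omega) z4; omega) (by omega)).2.2.2.1 z2 z3 z4
  refine ⟨lo, up, ⟨r, fun x x1 x2 x3 x4 => ?_⟩, fun u v u1 u2 u3 u4 u5 => ?_,
    fun z z1 z2 z3 z4 z5 => ?_, fun v w v1 v2 w1 w2 => ⟨(q v w v1 v2 w1 w2).1,
      (q v w v1 v2 w1 w2).2.1⟩, fun u v u1 u2 u3 u4 u5 => ?_, ?_, u3, fun x x1 x2 x3 x4 => ?_,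
    fun z z1 z2 z3 z4 => ?_⟩
  · obtain ⟨z, rfl⟩ : ∃ z, x = z + 1 := ⟨x - 1, by omega⟩
    have k1 := ((I.wd z x1 (by omega)).2 x4).2.2.2.1 x3
    have n1 : z + 2 ≠ y + 1 := fun t => by rw [t] at k1; omega
    have n2 : z + 2 ≠ y := fun t => by rw [t] at k1; omega
    have k2 := (I.wd (z + 2) (by omega) (by omega)).2
    exact ⟨by omega, by omega, not_le.1 fun t => (k2 t).2.2.1 k1.1⟩
  · obtain ⟨z, rfl⟩ : ∃ z, v = z + 2 := ⟨v - 2, by omega⟩
    have := (I.wd z (by omega) (by omega)).1 u5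
    obtain rfl | rfl : u = z ∨ u = z + 1 := by omega
    exacts [this.1.symm, this.2.symm]
  · have k1 := (I.wd z (by omega) (by omega)).2 z4
    have k2 := (I.wd (z + 2) (by omega) (by omega)).2 z5
    have k3 := I.le (z + 2)
    exact ((q (z + 2) (g (z + 3)) (by omega) (by omega) (hg (by omega)) le_rfl).2.2 (by omega)).symm
  · obtain ⟨z, rfl⟩ : ∃ z, v = z + 2 := ⟨v - 2, by omega⟩
    have := (I.wu z (by omega) (by omega)).2.1 u5
    obtain rfl | rfl : u = z ∨ u = z + 1 := by omega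
    exacts [this.1.symm, this.2.symm]
  · obtain ⟨z, rfl⟩ : ∃ z, c = z + 2 := ⟨c - 2, by omega⟩
    exact ⟨(I.wu z (by omega) (by omega)).2.2.1 le_rfl,
      (I.wu (z + 1) (by omega) (by omega)).2.2.1 (by omega)⟩
  · obtain ⟨z, rfl⟩ : ∃ z, x = z + 2 := ⟨x - 2, by omega⟩
    have := u4 z x1 x2 x3 x4
    exact ⟨⟨z + 1, rfl, this.1⟩, this.2⟩
  · have a0 := H.1 (z + 2) (by omega) z2 z3
    obtain ⟨k1, -, -, -, k2, -⟩ := I.wu z (by omega) (by omega)
    obtain ⟨k3, k4, k5⟩ := k2 z2 z3 (by omega)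
    obtain ⟨k6, k7⟩ := (I.wu (z + 1) (by omega) (by omega)).2.2.2.2.2.1 z2 z3
      (show up (z + 2) = 3 by omega)
    obtain ⟨k8, -, -, -, k9, -, k10⟩ := I.wu (z + 2) (by omega) (by omega)
    have k11 := (u4 (z + 1) (by omega) (by omega) k7 k6).2
    obtain ⟨z, rfl⟩ : ∃ t, z = t + 1 := ⟨z - 1, by omega⟩
    have k12 := (u4 z (by omega) (by omega) k4 k3).1
    simp only [Nat.add_assoc, Nat.reduceAdd] at *
    omega

/-- the vertices that are moved in the upper row -/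
def Up (g : ℕ → ℕ) (b c : ℕ) (up : ℕ → ℕ) (M : ℕ → Prop) (x : ℕ) : Prop :=
  b ≤ x ∧ x < c ∧ (up x < 3 ∨ ∃ y, M y ∧ g y ≤ x ∧ x ≤ g (y + 1))

variable {M : ℕ → Prop}

theorem ivt (hg : Monotone g) {L R w : ℕ} (h0 : L < R) (h1 : g L ≤ w) (h2 : w ≤ g R) :
    ∃ y, L ≤ y ∧ y < R ∧ g y ≤ w ∧ w ≤ g (y + 1) := by
  induction R, h0 using Nat.le_induction with
  | base => exact ⟨L, le_rfl, by omega, h1, h2⟩
  | succ R hR ih =>
    by_cases e : w ≤ g R
    · obtain ⟨y, a1, a2, a3⟩ := ih e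
      exact ⟨y, a1, by omega, a3⟩
    · exact ⟨R, by omega, by omega, by omega, h2⟩

theorem Val.ends (V : Val g h a b c lo up) (hg : Monotone g) (g2 : g b = c + 1) (A : Adm a b lo M)
    {L : ℕ} (E : End a b lo M L) : up (g L) < 3 ∧ up (g (L + 1)) < 3 := by
  obtain ⟨e1, e2, e | ⟨e3, ⟨z, rfl, e4⟩, e5⟩⟩ := E
  · exact ⟨(V.q L _ e1 e2 le_rfl (hg (by omega))).1 e, (V.q L _ e1 e2 (hg (by omega)) le_rfl).1 e⟩
  · have := A.rg _ e3
    refine ⟨(V.q z _ (by omega) (by omega) (hg (by omega)) le_rfl).1 e4, ?_⟩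
    by_cases e : z + 1 + 1 = b
    · rw [e, g2]; exact V.u2.2
    · exact (V.q _ _ (by omega) (by omega) le_rfl (hg (by omega))).1 (e5.resolve_right e)

/-- a vertex that is only moved because of a lower neighbour lies over an interval of moved
vertices -/
theorem Val.pass (V : Val g h a b c lo up) (hg : Monotone g) (g1 : g a = b) (g2 : g b = c + 1)
    (A : Adm a b lo M) {x : ℕ} (hx : Up g b c up M x) (hu : ¬ up x < 3) :
    ∃ L R, L + 1 < R ∧ End a b lo M L ∧ (End a b lo M R ∨ R = b) ∧ (∀ w, L < w → w < R → M w) ∧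
      b ≤ g (L + 1) ∧ g (L + 1) < x ∧ x < g R ∧ g R ≤ c + 1 ∧ up (g (L + 1)) < 3 ∧ up (g R) < 3 := by
  obtain ⟨x1, x2, x3 | ⟨y, y1, y2, y3⟩⟩ := hx
  · exact absurd x3 hu
  have := A.rg y y1
  rcases A.lens y y1 with e | ⟨L, R, e1, e2, e3, e4, e5⟩
  · exact absurd ((V.q y x (by omega) this.2 y2 y3).1 e) hu
  have k1 := (V.ends hg g2 A e3).2
  have k2 : up (g R) < 3 := by
    rcases e4 with e | rfl
    exacts [(V.ends hg g2 A e).1, g2 ▸ V.u2.2]
  have k3 : R ≤ b := by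
    rcases e4 with e | rfl
    exacts [e.2.1.le, le_rfl]
  have m1 := hg (show L + 1 ≤ y by omega)
  have m2 := hg (show y + 1 ≤ R by omega)
  have m3 := hg k3
  have m4 := hg (show a ≤ L + 1 by have := e3.1; omega)
  have n1 : x ≠ g (L + 1) := by rintro rfl; exact hu k1
  have n2 : x ≠ g R := by rintro rfl; exact hu k2
  exact ⟨L, R, by omega, e3, e4, e5, by omega, by omega, by omega, by omega, k1, k2⟩

theorem Val.adm (V : Val g h a b c lo up) (hg : Monotone g) (g1 : g a = b) (g2 : g b = c + 1)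
    (H : Lang b c h) (A : Adm a b lo M) : Adm b c h (Up g b c up M) := by
  have en : ∀ x, b ≤ x → x < c → up x < 3 → End b c h (Up g b c up M) x := fun x x1 x2 x3 =>
    ⟨x1, x2, (le_or_gt 3 (h x)).imp_right fun t => ⟨⟨x1, x2, Or.inl x3⟩, V.u4 x x1 x2 t x3⟩⟩
  refine ⟨fun x hx => ⟨?_, hx.2.1⟩, fun x hx => ?_, fun z z1 z2 z3 z4 => ?_⟩
  · by_cases hu : up x < 3
    · exact V.u3 x hx.1 (by have := hx.2.1; omega) hu
    · obtain ⟨L, R, -, -, -, -, e1, e2, e3, e4, e5, -⟩ := V.pass hg g1 g2 A hx hu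
      have := V.u3 _ e1 (by omega) e5
      omega
  · have x2 := hx.2.1
    by_cases hu : up x < 3
    · refine (le_or_gt 3 (h x)).imp_right fun t => ?_
      obtain ⟨⟨z, rfl, e1⟩, e2⟩ := V.u4 x hx.1 x2 t hu
      have := V.u3 _ hx.1 (by omega) hu
      refine ⟨z, z + 1 + 1, by omega, by omega, ⟨by omega, by omega, Or.inl e1⟩, ?_,
        fun w w1 w2 => (show z + 1 = w by omega) ▸ hx⟩
      by_cases e : z + 1 + 1 = c
      · exact Or.inr e
      · exact Or.inl ⟨by omega, by omega, Or.inl (e2.resolve_right e)⟩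
    · obtain ⟨L, R, e0, -, -, e, e1, e2, e3, e4, e5, e6⟩ := V.pass hg g1 g2 A hx hu
      refine Or.inr ⟨g (L + 1), min (g R) c, e2, by omega, en _ e1 (by omega) e5, ?_,
        fun w w1 w2 => ⟨by omega, by omega, Or.inr ?_⟩⟩
      · by_cases t : g R < c
        · rw [min_eq_left t.le]
          exact Or.inl (en _ (by omega) t e6)
        · exact Or.inr (by omega)
      · obtain ⟨y, y1, y2, y3⟩ := ivt hg e0 w1.le (by omega)
        exact ⟨y, e y (by omega) y2, y3⟩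
  · obtain ⟨k0, k1, k2, k3, k4, k5, k6⟩ :=
      V.u5 z z1 z2 z3 fun t => z4 ⟨by omega, z2, Or.inl t⟩
    exact ⟨⟨z1, by omega, Or.inl k1⟩, ⟨by omega, by omega, Or.inl k2⟩,
      ⟨by omega, by omega, Or.inl k3⟩, ⟨by omega, k0, Or.inl k4⟩, k5, k6⟩

theorem Val.pro (V : Val g h a b c lo up) (hg : Monotone g) (g1 : g a = b) (g2 : g b = c + 1)
    (H : Lang b c h) (hc : b + 2 ≤ c) (A : Adm a b lo M) :
    Pro g (fun y => a ≤ y ∧ y < b ∧ ¬ M y) fun x => Up g b c up M x ∨ x = c ∨ x = c + 1 := by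
  have A' := V.adm hg g1 g2 H A
  have hN : ∀ u, a ≤ u ∧ u < b ∧ ¬ M u → u < b ∧ b ≤ g u := fun u hu => ⟨hu.2.1, g1 ▸ hg hu.1⟩
  have back : ∀ y, a ≤ y → y < b → ¬ M y → 3 ≤ lo y →
      (∀ w, w ≠ y → w ≤ y + 2 → y ≤ w + 2 → M w) ∧ g (y + 1) = g y ∧ up (g y) < 3 := by
    intro y y1 y2 y3 y4
    have := V.lang.1 y y1 y2 y4
    obtain ⟨z, rfl⟩ : ∃ z, y = z + 2 := ⟨y - 2, by omega⟩
    obtain ⟨k1, k2, k3, k4, k5, k6⟩ := A.back z (by omega) y2 y4 y3
    refine ⟨fun w w1 w2 w3 => ?_, (V.l2 z (by omega) (A.rg _ k4).2 k5 y4 k6).symm,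
      (V.q _ _ y1 y2 le_rfl (hg (by omega))).1 y4⟩
    obtain rfl | rfl | rfl | rfl : w = z ∨ w = z + 1 ∨ w = z + 3 ∨ w = z + 4 := by omega
    exacts [k1, k2, k3, k4]
  have key : ∀ t, Pro g (fun y => a ≤ y ∧ y < b ∧ ¬ M y)
      fun x => (b ≤ x ∧ x ≤ c + 1 ∧ up x < 3) ∨ (x < t ∧ Up g b c up M x) := fun t => by
    induction t with
    | zero =>
      refine ⟨fun v => Fin.ofNat 3 (if v < b then if lo v < 3 then lo v else up (g v) + 1 else up v),
        fun u v hu hv huv e => ?_⟩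
      simp only [Ne, Fin.ext_iff, Fin.val_ofNat]
      rcases hu with ⟨u1, u2, u3⟩ | ⟨u1, u2, u3⟩ | u1 <;> rcases hv with ⟨v1, v2, v3⟩ | ⟨v1, v2, v3⟩ | v1
      any_goals omega
      · have := hN u ⟨u1, u2, u3⟩
        have e' : v ≤ u + 2 := by
          rcases e with e | e <;> omega
        have k1 : lo u < 3 := not_le.1 fun t => v3 ((back u u1 u2 u3 t).1 v (by omega) e' (by omega))
        have k2 : lo v < 3 := not_le.1 fun t => u3 ((back v v1 v2 v3 t).1 u (by omega) (by omega) e')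
        have := V.l1 u v u1 huv e' v2 k2
        rw [if_pos u2, if_pos v2, if_pos k1, if_pos k2]
        omega
      · have := V.u3 v v1 v2 v3
        obtain ⟨-, e1, e2⟩ := e.resolve_left (by omega)
        rw [if_pos u2, if_neg (show ¬ v < b by omega)]
        split_ifs with t
        · have := (V.q u v u1 u2 e1 e2).2 t
          omega
        · have := (back u u1 u2 u3 (not_lt.1 t)).2.1
          rw [show g u = v by omega]
          omega
      · have := V.u1 u v u1 huv (e.resolve_right fun t => by have := t.1.2.1; omega) v2 v3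
        rw [if_neg (show ¬ u < b by omega), if_neg (show ¬ v < b by omega)]
        omega
    | succ t ih =>
      by_cases e : Up g b c up M t ∧ ¬ up t < 3
      · obtain ⟨L, R, e0, eL, eR, e', -, e2, e3, -⟩ := V.pass hg g1 g2 A e.1 e.2
        obtain ⟨k, hk⟩ := fill hg (b := b) hN (fun u hu => hu.elim
          (fun t => V.u3 u t.1 t.2.1 t.2.2) fun t => (A'.rg u t.2).1) (A'.rg t e.1).1 e2 e3
          (fun w w1 w2 w3 => w3.2.2 (e' w w1 w2)) (fun u v hu hv u1 v1 => not_le.1 fun t => by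
            obtain rfl : u = L := by omega
            obtain ⟨l1, l2, l3 | l3⟩ := eL
            · exact hv.2.2 ((back u l1 l2 hu.2.2 l3).1 v (by omega) t (by omega))
            · exact hu.2.2 l3.1) ih
        have m : ∀ x, (b ≤ x ∧ x ≤ c + 1 ∧ up x < 3) ∨ (x < t + 1 ∧ Up g b c up M x) →
            ((b ≤ x ∧ x ≤ c + 1 ∧ up x < 3) ∨ (x < t ∧ Up g b c up M x)) ∨ x = t := by
          rintro x (p | p)
          · exact Or.inl (Or.inl p)
          · exact (Nat.lt_succ_iff_lt_or_eq.1 p.1).imp_left fun q => Or.inr ⟨q, p.2⟩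
        exact ⟨k, fun u v hu hv => hk u v (hu.imp_right (m u)) (hv.imp_right (m v))⟩
      · obtain ⟨k, hk⟩ := ih
        have m : ∀ x, (b ≤ x ∧ x ≤ c + 1 ∧ up x < 3) ∨ (x < t + 1 ∧ Up g b c up M x) →
            (b ≤ x ∧ x ≤ c + 1 ∧ up x < 3) ∨ (x < t ∧ Up g b c up M x) := by
          rintro x (p | p)
          · exact Or.inl p
          · rcases Nat.lt_succ_iff_lt_or_eq.1 p.1 with q | rfl
            · exact Or.inr ⟨q, p.2⟩
            · exact Or.inl ⟨p.2.1, by have := p.2.2.1; omega, not_not.1 fun q => e ⟨p.2, q⟩⟩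
        exact ⟨k, fun u v hu hv => hk u v (hu.imp_right (m u)) (hv.imp_right (m v))⟩
  obtain ⟨k, hk⟩ := key c
  have m : ∀ x, Up g b c up M x ∨ x = c ∨ x = c + 1 →
      (b ≤ x ∧ x ≤ c + 1 ∧ up x < 3) ∨ (x < c ∧ Up g b c up M x) := by
    rintro x (p | rfl | rfl)
    exacts [Or.inr ⟨p.2.1, p⟩, Or.inl ⟨by omega, by omega, V.u2.1⟩,
      Or.inl ⟨by omega, le_rfl, V.u2.2⟩]
  exact ⟨k, fun u v hu hv => hk u v (hu.imp_right (m u)) (hv.imp_right (m v))⟩

/-- from one row to the row below -/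
theorem step (hf : Monotone f) (ha : 1 ≤ a) (hab : a < b) (h3 : b ≠ a + 3) (hc : b + 2 ≤ c)
    (f1 : b ≤ f a) (f2 : c ≤ f b) (f3 : f b ≤ c + 1)
    (hp : f (a + 1) ≤ b + 1 ∨ f (a + 1) < f (a + 2) ∨ b ≤ a + 2) (T : Top f b c) : Top f a b := by
  classical
  obtain ⟨h, H, T⟩ := T
  obtain ⟨g, hg⟩ : ∃ g : ℕ → ℕ, ∀ y, g y = if y ≤ a then b else if y < b then f y else c + 1 :=
    ⟨_, fun _ => rfl⟩
  have gm : Monotone g := monotone_nat_of_le_succ fun y => by
    have m1 := hf (show y ≤ y + 1 by omega)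
    have m2 : a ≤ y + 1 → _ := @hf a (y + 1)
    have m3 : y ≤ b → _ := @hf y b
    rw [hg, hg]
    split_ifs <;> omega
  have g1 : g a = b := by rw [hg, if_pos le_rfl]
  have g2 : g b = c + 1 := by rw [hg, if_neg (by omega), if_neg (by omega)]
  have g3 : ∀ u, a ≤ u → u < b → g u ≤ f u ∧ f (u + 1) ≤ g (u + 1) ∧ g (u + 1) ≤ c + 1 ∧ b ≤ g u := by
    intro u u1 u2
    have m2 := hf u1
    have m3 := hf (show u + 1 ≤ b from u2)
    rw [hg, hg]
    split_ifs <;> omega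
  obtain ⟨lo, up, V⟩ := val gm H hc ha hab h3 g1 g2 (by
    rw [hg, hg]
    split_ifs <;> omega)
  refine ⟨lo, V.lang, fun M A β => ?_⟩
  have A' := V.adm gm g1 g2 H A
  obtain ⟨k, hk⟩ := V.pro gm g1 g2 H hc A
  obtain ⟨col, c1, c2, c3, c4, c5⟩ := T _ A' (!β)
  rw [Bool.not_not] at c3 c4
  have nc : ∀ x, c ≤ x → ¬ Up g b c up M x := fun x x1 t => by have := t.2.1; omega
  obtain ⟨π, p1, p2⟩ := fin3' (k c) (k (c + 1)) (col c).2 (col (c + 1)).2
    (hk _ _ (by simp) (by simp) (by omega) (by omega)) fun t =>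
      c1 c (c + 1) (by omega) (nc _ le_rfl) (nc _ (by omega)) (Or.inl ⟨by omega, by omega⟩)
        (Prod.ext (c3.trans c4.symm) t)
  obtain ⟨col', d⟩ : ∃ col' : ℕ → Bool × Fin 3, ∀ v, col' v =
    if v < b ∨ Up g b c up M v then (β, π (k v)) else col v := ⟨_, fun _ => rfl⟩
  have d1 : ∀ v, v < b ∨ Up g b c up M v ∨ v = c ∨ v = c + 1 → col' v = (β, π (k v)) := by
    rintro v (t | t | rfl | rfl)
    · rw [d, if_pos (Or.inl t)]
    · rw [d, if_pos (Or.inr t)]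
    · rw [d, if_neg (not_or.2 ⟨by omega, nc _ le_rfl⟩), p1, ← c3]
    · rw [d, if_neg (not_or.2 ⟨by omega, nc _ (by omega)⟩), p2, ← c4]
  have d2 : ∀ v, b ≤ v → ¬ Up g b c up M v → col' v = col v := fun v v1 v2 => by
    rw [d, if_neg (not_or.2 ⟨by omega, v2⟩)]
  have d3 : ∀ v, b ≤ v → v ≤ c + 1 →
      (Up g b c up M v ∨ v = c ∨ v = c + 1) ∨ (col' v).1 = !β := fun v v1 v2 => by
    by_cases t : Up g b c up M v
    · exact Or.inl (Or.inl t)
    · by_cases t' : v < c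
      · exact Or.inr ((congrArg Prod.fst (d2 v v1 t)).trans (c2 v v1 t' t))
      · exact Or.inl (Or.inr (by omega))
  have ne : ∀ u v, (col' u).1 = β → (col' v).1 = !β → col' u ≠ col' v := fun u v e1 e2 e => by
    rw [e, e2] at e1
    simp at e1
  refine ⟨col', fun u v u1 u2 v2 e => ?_, fun y _ y2 _ => by rw [d1 y (Or.inl y2)], ?_, ?_,
    fun y x y1 x1 x2 => ?_⟩
  · by_cases ub : u < b
    · have G := g3 u u1 ub
      have e' : u < v ∧ (v ≤ u + 2 ∨ (g u ≤ v ∧ v ≤ g (u + 1))) := by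
        rcases e with ⟨e1, e2⟩ | ⟨rfl, e1, e2⟩ <;> omega
      have K : ∀ t : (a ≤ v ∧ v < b ∧ ¬ M v) ∨ Up g b c up M v ∨ v = c ∨ v = c + 1,
          col' u ≠ col' v := fun t => by
        rw [d1 u (Or.inl ub), d1 v (t.imp_left fun s => s.2.1)]
        exact fun s => hk u v (Or.inl ⟨u1, ub, u2⟩) t e'.1 (e'.2.imp_right fun s => ⟨⟨u1, ub, u2⟩, s⟩)
          (π.injective (Prod.ext_iff.1 s).2)
      by_cases vb : v < b
      · exact K (Or.inl ⟨by omega, vb, v2⟩)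
      · exact (d3 v (by omega) (by omega)).elim (fun t => K (Or.inr t))
          (ne u v (by rw [d1 u (Or.inl ub)]))
    · obtain ⟨e1, e2⟩ := e.resolve_right (by omega)
      by_cases t : Up g b c up M u
      · have t1 := t.2.1
        rcases e2 with e2 | e2
        · refine (d3 v (by omega) (by omega)).elim (fun s => ?_)
            (ne u v (by rw [d1 u (Or.inr (Or.inl t))]))
          rw [d1 u (Or.inr (Or.inl t)), d1 v (Or.inr s)]
          exact fun s' => hk u v (Or.inr (Or.inl t)) (Or.inr s) e1 (Or.inl e2)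
            (π.injective (Prod.ext_iff.1 s').2)
        · have := hf t.1
          refine ne u v (by rw [d1 u (Or.inr (Or.inl t))]) ?_
          rw [d2 v (by omega) (nc v (by omega))]
          exact c5 u v t e2.1 e2.2
      · by_cases s : Up g b c up M v
        · refine (ne v u (by rw [d1 v (Or.inr (Or.inl s))]) ?_).symm
          rw [d2 u (by omega) t]
          exact c2 u (by omega) (e1.trans s.2.1) t
        · rw [d2 u (by omega) t, d2 v (by omega) s]
          exact c1 u v (by omega) t s (Or.inl ⟨e1, e2⟩)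
  · have t : ¬ Up g b c up M b := fun t => by have := A'.rg _ t; omega
    rw [d2 b le_rfl t]
    exact c2 b le_rfl (by omega) t
  · have t : ¬ Up g b c up M (b + 1) := fun t => by have := A'.rg _ t; omega
    rw [d2 _ (by omega) t]
    exact c2 _ (by omega) (by omega) t
  · have := A.rg y y1
    have G := g3 y (by omega) this.2
    rw [d1 x (Or.inr ?_)]
    by_cases t : x < c
    · have := hf (show a ≤ y by omega)
      exact Or.inl ⟨by omega, t, Or.inr ⟨y, y1, by omega, by omega⟩⟩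
    · exact Or.inr (by omega)

end Pool.Agent.P.MP_883472_co.Six
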